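import Pool.Agent.P.MP_9594ac_pr.Main

open Pool.Agent.P.MP_9594ac_pr in
/-- Every critical model `(K_s, r_s)` is sparse before percolation. -/
theorem Pool.Agent.Results.MP_9594ac_pr.Sparse.result
    (K : Set (EuclideanSpace ℝ (Fin 2))) (hconv : Convex ℝ K)
    (hrot : ∀ k ∈ K, ∃ k' ∈ K, k' 0 = -k 1 ∧ k' 1 = k 0)
    (hmax : IsGreatest ((fun k => ‖k‖) '' K) 1) (s : ℝ) (hs : 1 ≤ s)
    (hcrit : (threshold (lattice K s) : ℝ) ≤ ((lattice K s).ncard : ℝ) / 2)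
    (ε : ℝ) (hε : 0 < ε) :
    Filter.Tendsto (fun n : ℕ => badProb (lattice K s) (threshold (lattice K s)) ε n)
      Filter.atTop (nhds 0) :=
  main K hconv hrot hmax s hs hcrit ε hε
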